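import Mathlib
import Pool.Agent.Lib.MP_70fc77_co.Defs
import Pool.Agent.Lib.MP_70fc77_co.Main1

/-!
# The maximum number of edges of maximal `d`-fold `k`-colourable graphs

Upper bound for large `n`, with `L = ⌈log₂ d⌉`: induction on `n`. If `G` has no `k`-clique, Turan's
theorem for `K_k` applies. Otherwise let `K` be a `k`-clique. A vertex `y` outside `K` is in the
colour class of one of its `a(y)` non-neighbours in `K`, so
`2 ^ (L - 1) < d ≤ ∏ a(y) ≤ 2 ^ (∑ (a(y) - 1))`. Hence some vertex of `K` has at least `(n + L) / k`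
non-neighbours (itself included), and deleting a vertex of a `k`-clique is injective on colourings.
-/

set_option autoImplicit false

namespace Pool.Agent.Results.MP_70fc77_co.EdgeMaximum

open Pool.Agent.Lib.MP_70fc77_co

/-- Let `d ≥ 2`. For `k ≥ 2` and all `n ≥ 2 d - 2` (and for every further `n` satisfying one of the
other conditions below) `f_d(n, k)` exists and equals `fValue d n k`. For `k = 1`, and for `d = 3`,
`n < 3`, there is no maximal `d`-fold `k`-colourable graph on `n` vertices. -/
theorem result (d : ℕ) (hd : 2 ≤ d) :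
    (∀ k n : ℕ, 2 ≤ k →
      (2 * d ≤ n + 2 ∨ (k - 1) * Nat.clog 2 d < n ∨ d ≤ turanColourings n (k - 1) ∨
        2 * minEdges d (n - k) ≤ n ∨ (d = 3 ∧ n = 3)) →
      IsGreatest (edgeCounts d n k) (fValue d n k)) ∧
    (∀ n : ℕ, edgeCounts d n 1 = ∅) ∧
    (d = 3 → ∀ k n : ℕ, n < 3 → edgeCounts d n k = ∅) := by
  refine ⟨fun k n hk hn => main1 hd hk hn, fun n => case_one hd, ?_⟩
  rintro rfl k n hn
  exact case_small hn

end Pool.Agent.Results.MP_70fc77_co.EdgeMaximum
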