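import Mathlib
import Pool.Agent.Lib.MP_70fc77_co.Defs
import Pool.Agent.Lib.MP_70fc77_co.TypeDefs
import Pool.Agent.Lib.MP_70fc77_co.Main2

/-!
# The maximal `d`-fold `k`-colourable graphs with the maximum number of edges

For `L = ⌈log₂ d⌉`, a vertex of maximum closed non-degree in a `k`-clique is deleted, and the
classification is transported through the deletion. For the complements of the remaining graphs the
number of clique partitions satisfies a deletion-contraction recursion.
-/

set_option autoImplicit false

namespace Pool.Agent.Results.MP_70fc77_co.ExtremalGraphs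

open Pool.Agent.Lib.MP_70fc77_co

/-- Let `d, k ≥ 2`, and let `n ≥ 2 d - 2`, or let `n` satisfy one of the other conditions below. Then
the maximal `d`-fold `k`-colourable graphs on `n` vertices with exactly `f_d(n, k)` edges are the
graphs listed in `IsExtremal`. -/
theorem result (d k n : ℕ) (hd : 2 ≤ d) (hk : 2 ≤ k)
    (hn : 2 * d ≤ n + 2 ∨ (k - 1) * Nat.clog 2 d < n ∨ d ≤ turanColourings n (k - 1) ∨
      ∃ H : SimpleGraph (Fin n), IsExtremal d k H) (G : SimpleGraph (Fin n)) :
    (MaxFoldColourable d k G ∧ IsGreatest (edgeCounts d n k) G.edgeSet.ncard) ↔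
      IsExtremal d k G :=
  main5 hd hk hn G

end Pool.Agent.Results.MP_70fc77_co.ExtremalGraphs
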